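import Pool.Agent.Q10.DG.Defs

/-!
# The density of a partition of a tripartite graph
-/

namespace Pool.Agent.Q10.DG

open Finset

variable {I : Inst}

theorem Adj.symm {u v : ℕ} (h : Adj I u v) : Adj I v u := ⟨h.1.symm, h.2.symm⟩

/-- The degree of `u` in `s`. -/
def deg (I : Inst) (s : Finset ℕ) (u : ℕ) : ℕ := #{v ∈ s | Adj I u v}

theorem two_edges (s : Finset ℕ) : 2 * edgesIn I s = ∑ u ∈ s, deg I s u := by
  have h1 : ∑ u ∈ s, deg I s u = #{p ∈ s ×ˢ s | Adj I p.1 p.2} := by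
    unfold deg
    rw [card_filter, Finset.sum_product]
    exact Finset.sum_congr rfl fun u _ => card_filter _ _
  have h2 : #{p ∈ s ×ˢ s | Adj I p.1 p.2} = #{p ∈ s ×ˢ s | p.1 < p.2 ∧ Adj I p.1 p.2} +
      #{p ∈ s ×ˢ s | p.2 < p.1 ∧ Adj I p.1 p.2} := by
    rw [← card_union_of_disjoint]
    · congr 1
      ext p
      simp only [mem_filter, mem_union]
      constructor
      · rintro ⟨a, b⟩
        rcases lt_or_gt_of_ne b.1 with h | h
        · exact Or.inl ⟨a, h, b⟩
        · exact Or.inr ⟨a, h, b⟩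
      · rintro (⟨a, _, b⟩ | ⟨a, _, b⟩) <;> exact ⟨a, b⟩
    · rw [disjoint_left]
      intro p hp hq
      rw [mem_filter] at hp hq
      exact absurd hp.2.1 (not_lt.2 hq.2.1.le)
  have h3 : #{p ∈ s ×ˢ s | p.2 < p.1 ∧ Adj I p.1 p.2} =
      #{p ∈ s ×ˢ s | p.1 < p.2 ∧ Adj I p.1 p.2} := by
    refine card_bij' (fun p _ => (p.2, p.1)) (fun p _ => (p.2, p.1)) ?_ ?_ ?_ ?_
    · intro p hp
      rw [mem_filter, mem_product] at hp ⊢
      exact ⟨⟨hp.1.2, hp.1.1⟩, hp.2.1, hp.2.2.symm⟩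
    · intro p hp
      rw [mem_filter, mem_product] at hp ⊢
      exact ⟨⟨hp.1.2, hp.1.1⟩, hp.2.1, hp.2.2.symm⟩
    · intro p _; rfl
    · intro p _; rfl
  rw [h1, h2, h3]
  unfold edgesIn
  ring

/-- A set with as many edges as a balanced complete tripartite graph. -/
def Perfect (I : Inst) (s : Finset ℕ) : Prop := 3 * edgesIn I s = #s * #s

/-- The number of vertices of colour `i`. -/
def cn (col : ℕ → ℕ) (s : Finset ℕ) (i : ℕ) : ℕ := #{v ∈ s | col v = i}

theorem card_eq_cn {col : ℕ → ℕ} {s : Finset ℕ} (h3 : ∀ u ∈ s, col u < 3) :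
    #s = cn col s 0 + cn col s 1 + cn col s 2 := by
  have := Finset.card_eq_sum_card_fiberwise (f := col) (s := s) (t := range 3)
    (fun u hu => by simpa using h3 u hu)
  rw [this]
  simp [Finset.sum_range_succ, cn]

theorem deg_le {col : ℕ → ℕ} {s : Finset ℕ} (hc : ∀ u ∈ s, ∀ v ∈ s, Adj I u v → col u ≠ col v)
    {u : ℕ} (hu : u ∈ s) : deg I s u + cn col s (col u) ≤ #s := by
  unfold deg cn
  rw [← card_union_of_disjoint]
  · exact card_le_card (union_subset (filter_subset _ _) (filter_subset _ _))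
  · rw [disjoint_left]
    intro v hv hv'
    rw [mem_filter] at hv hv'
    exact hc u hu v hv.1 hv.2 hv'.2.symm

theorem sum_cn {col : ℕ → ℕ} {s : Finset ℕ} (h3 : ∀ u ∈ s, col u < 3) :
    ∑ u ∈ s, cn col s (col u) = cn col s 0 * cn col s 0 + cn col s 1 * cn col s 1 +
      cn col s 2 * cn col s 2 := by
  have h1 : ∀ i, ∑ u ∈ s with col u = i, cn col s (col u) = cn col s i * cn col s i := by
    intro i
    rw [Finset.sum_congr rfl (g := fun _ => cn col s i) (fun u hu => by rw [(mem_filter.1 hu).2])]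
    rw [sum_const, smul_eq_mul]
    rfl
  rw [← Finset.sum_fiberwise_of_maps_to (s := s) (t := range 3) (g := col)
    (fun u hu => by simpa using h3 u hu)]
  simp only [h1, Finset.sum_range_succ, Finset.sum_range_zero, zero_add]

theorem edges_le {col : ℕ → ℕ} {s : Finset ℕ} (hc : ∀ u ∈ s, ∀ v ∈ s, Adj I u v → col u ≠ col v)
    (h3 : ∀ u ∈ s, col u < 3) :
    2 * edgesIn I s + (cn col s 0 * cn col s 0 + cn col s 1 * cn col s 1 +
      cn col s 2 * cn col s 2) ≤ #s * #s := by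
  rw [two_edges, ← sum_cn h3, ← sum_add_distrib]
  refine (sum_le_sum fun u hu => deg_le hc hu).trans ?_
  rw [sum_const, smul_eq_mul]

theorem three_edges_le {col : ℕ → ℕ} {s : Finset ℕ}
    (hc : ∀ u ∈ s, ∀ v ∈ s, Adj I u v → col u ≠ col v) (h3 : ∀ u ∈ s, col u < 3) :
    3 * edgesIn I s ≤ #s * #s := by
  have h := edges_le hc h3
  have hk := card_eq_cn (col := col) h3
  obtain ⟨a, ha⟩ : ∃ a, a = cn col s 0 := ⟨_, rfl⟩
  obtain ⟨b, hb⟩ : ∃ b, b = cn col s 1 := ⟨_, rfl⟩
  obtain ⟨c, hc'⟩ : ∃ c, c = cn col s 2 := ⟨_, rfl⟩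
  rw [← ha, ← hb, ← hc'] at h hk
  rw [hk] at h ⊢
  zify at h ⊢
  nlinarith [sq_nonneg ((a : ℤ) - b), sq_nonneg ((b : ℤ) - c), sq_nonneg ((a : ℤ) - c)]

/-- A perfect set has the same number of vertices of each colour. -/
theorem Perfect.cn_eq {col : ℕ → ℕ} {s : Finset ℕ} (hs : Perfect I s)
    (hc : ∀ u ∈ s, ∀ v ∈ s, Adj I u v → col u ≠ col v) (h3 : ∀ u ∈ s, col u < 3) :
    cn col s 0 = cn col s 1 ∧ cn col s 1 = cn col s 2 := by
  have h := edges_le hc h3
  have hk := card_eq_cn (col := col) h3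
  unfold Perfect at hs
  obtain ⟨a, ha⟩ : ∃ a, a = cn col s 0 := ⟨_, rfl⟩
  obtain ⟨b, hb⟩ : ∃ b, b = cn col s 1 := ⟨_, rfl⟩
  obtain ⟨c, hc'⟩ : ∃ c, c = cn col s 2 := ⟨_, rfl⟩
  rw [← ha, ← hb, ← hc'] at h hk ⊢
  rw [hk] at h hs
  zify at h hs ⊢
  have e : ((a : ℤ) - b) ^ 2 + ((b : ℤ) - c) ^ 2 + ((a : ℤ) - c) ^ 2 ≤ 0 := by nlinarith
  have e1 : ((a : ℤ) - b) ^ 2 = 0 := by
    nlinarith [sq_nonneg ((a : ℤ) - b), sq_nonneg ((b : ℤ) - c), sq_nonneg ((a : ℤ) - c)]
  have e2 : ((b : ℤ) - c) ^ 2 = 0 := by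
    nlinarith [sq_nonneg ((a : ℤ) - b), sq_nonneg ((b : ℤ) - c), sq_nonneg ((a : ℤ) - c)]
  rw [sq_eq_zero_iff] at e1 e2
  constructor <;> linarith

/-- In a perfect set all vertices of different colours are adjacent. -/
theorem Perfect.adj {col : ℕ → ℕ} {s : Finset ℕ} (hs : Perfect I s)
    (hc : ∀ u ∈ s, ∀ v ∈ s, Adj I u v → col u ≠ col v) (h3 : ∀ u ∈ s, col u < 3)
    {u v : ℕ} (hu : u ∈ s) (hv : v ∈ s) (huv : col u ≠ col v) : Adj I u v := by
  by_contra hn
  have hlt : deg I s u + cn col s (col u) < #s := by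
    unfold deg cn
    rw [← card_union_of_disjoint]
    · refine card_lt_card ⟨union_subset (filter_subset _ _) (filter_subset _ _), fun h => ?_⟩
      have := h hv
      rw [mem_union, mem_filter, mem_filter] at this
      rcases this with h | h
      · exact hn h.2
      · exact huv h.2.symm
    · rw [disjoint_left]
      intro w hw hw'
      rw [mem_filter] at hw hw'
      exact hc u hu w hw.1 hw.2 hw'.2.symm
  have h : 2 * edgesIn I s + (cn col s 0 * cn col s 0 + cn col s 1 * cn col s 1 +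
      cn col s 2 * cn col s 2) < #s * #s := by
    rw [two_edges, ← sum_cn h3, ← sum_add_distrib]
    refine (sum_lt_sum (g := fun _ => #s) (fun u hu => deg_le hc hu) ⟨u, hu, hlt⟩).trans_le ?_
    rw [sum_const, smul_eq_mul]
  obtain ⟨h1, h2⟩ := hs.cn_eq hc h3
  have hk := card_eq_cn (col := col) h3
  unfold Perfect at hs
  obtain ⟨a, ha⟩ : ∃ a, a = cn col s 0 := ⟨_, rfl⟩
  rw [← h2, ← h1, ← ha] at hk h
  rw [hk] at h hs
  nlinarith

/-- If every edge belongs to a list of at most seven edges of one of its endpoints, there are at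
most seven edges for each vertex. -/
theorem edges_le_seven {s : Finset ℕ} (out : ℕ → Finset ℕ) (h7 : ∀ u, #(out u) ≤ 7)
    (ho : ∀ u v, Adj I u v → v ∈ out u ∨ u ∈ out v) : edgesIn I s ≤ 7 * #s := by
  have h1 : edgesIn I s ≤ #(s.sigma fun u => out u) := by
    unfold edgesIn
    refine card_le_card_of_injOn (fun p => if p.2 ∈ out p.1 then ⟨p.1, p.2⟩ else ⟨p.2, p.1⟩) ?_ ?_
    · intro p hp
      simp only [coe_filter, mem_product, Set.mem_ofPred_eq] at hp
      obtain ⟨⟨a, b⟩, c, d⟩ := hp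
      rcases em (p.2 ∈ out p.1) with h | h
      · simp only [h, if_true, coe_sigma, Set.mem_sigma_iff, mem_coe]
        exact ⟨a, trivial⟩
      · simp only [h, if_false, coe_sigma, Set.mem_sigma_iff, mem_coe]
        exact ⟨b, (ho _ _ d).resolve_left h⟩
    · intro p hp q hq hpq
      simp only [coe_filter, mem_product, Set.mem_ofPred_eq] at hp hq
      have hp1 := hp.2.1
      have hq1 := hq.2.1
      simp only at hpq
      split_ifs at hpq with h1 h2 h2 <;> simp only [Sigma.mk.injEq, heq_eq_eq] at hpq <;>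
        obtain ⟨e1, e2⟩ := hpq
      · exact Prod.ext e1 e2
      · omega
      · omega
      · exact Prod.ext e2 e1
  refine h1.trans ?_
  rw [card_sigma]
  refine (sum_le_sum fun u _ => h7 u).trans ?_
  rw [sum_const, smul_eq_mul, mul_comm]

theorem part_bound {col : ℕ → ℕ} {s : Finset ℕ} (hne : s.Nonempty)
    (hc : ∀ u ∈ s, ∀ v ∈ s, Adj I u v → col u ≠ col v) (h3 : ∀ u ∈ s, col u < 3)
    (h7 : edgesIn I s ≤ 7 * #s) :
    (edgesIn I s : ℝ) / #s ≤ (#s : ℝ) / 3 ∧
      (¬ Perfect I s → (edgesIn I s : ℝ) / #s ≤ (#s : ℝ) / 3 - (#s : ℝ) / 2352) := by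
  have hk : 0 < #s := card_pos.2 hne
  have hk' : (0 : ℝ) < #s := by exact_mod_cast hk
  have h := three_edges_le hc h3
  constructor
  · rw [div_le_div_iff₀ hk' (by norm_num)]
    have : ((3 * edgesIn I s : ℕ) : ℝ) ≤ ((#s * #s : ℕ) : ℝ) := by exact_mod_cast h
    push_cast at this
    linarith
  · intro hn
    rw [div_le_iff₀ hk']
    unfold Perfect at hn
    have h' : 3 * edgesIn I s + 1 ≤ #s * #s := by omega
    have e1 : (3 * (edgesIn I s : ℝ) + 1) ≤ (#s : ℝ) * #s := by exact_mod_cast h'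
    have e2 : (edgesIn I s : ℝ) ≤ 7 * #s := by exact_mod_cast h7
    rcases le_or_gt (#s) 28 with h28 | h28
    · have e3 : (#s : ℝ) ≤ 28 := by exact_mod_cast h28
      nlinarith
    · have e3 : (29 : ℝ) ≤ #s := by exact_mod_cast h28
      nlinarith

/-- The density of a partition of a tripartite graph is at most a third of the number of vertices,
with a loss proportional to the number of vertices outside perfect parts. -/
theorem density_le {col : ℕ → ℕ} (hc : ∀ u v, Adj I u v → u ∈ verts I → v ∈ verts I →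
    col u ≠ col v) (h3 : ∀ u, col u < 3) (h7 : ∀ s, edgesIn I s ≤ 7 * #s)
    (P : Finpartition (verts I)) (B : Finset ℕ)
    (hB : ∀ v ∈ B, v ∈ verts I ∧ ¬ Perfect I (P.part v)) :
    density I P ≤ (I.1.length : ℝ) / 3 - (#B : ℝ) / 2352 := by
  classical
  have h1 : ∀ s ∈ P.parts, (edgesIn I s : ℝ) / #s ≤
      (#s : ℝ) / 3 - (if Perfect I s then 0 else (#s : ℝ)) / 2352 := by
    intro s hs
    have hsub : s ⊆ verts I := P.le hs
    have := part_bound (I := I) (col := col) (P.nonempty_of_mem_parts hs)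
      (fun u hu v hv h => hc u v h (hsub hu) (hsub hv)) (fun u _ => h3 u) (h7 s)
    split_ifs with hp
    · rw [zero_div, sub_zero]; exact this.1
    · exact this.2 hp
  have h2 : ∑ s ∈ P.parts, (#s : ℝ) = I.1.length := by
    have := P.sum_card_parts
    rw [← Nat.cast_sum, this]
    simp [verts]
  have h4 : (#B : ℝ) ≤ ∑ s ∈ P.parts, (if Perfect I s then 0 else (#s : ℝ)) := by
    have h5 : B ⊆ (P.parts.filter fun s => ¬ Perfect I s).biUnion fun s => s := by
      intro v hv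
      obtain ⟨hv1, hv2⟩ := hB v hv
      rw [mem_biUnion]
      exact ⟨P.part v, mem_filter.2 ⟨P.part_mem.2 hv1, hv2⟩, P.mem_part hv1⟩
    have h6 := (card_le_card h5).trans card_biUnion_le
    have h7 : ((∑ s ∈ P.parts with ¬ Perfect I s, #s : ℕ) : ℝ) =
        ∑ s ∈ P.parts, (if Perfect I s then 0 else (#s : ℝ)) := by
      rw [Nat.cast_sum, Finset.sum_filter]
      refine Finset.sum_congr rfl fun s _ => ?_
      split_ifs <;> simp_all
    rw [← h7]
    exact_mod_cast h6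
  unfold density
  refine (sum_le_sum h1).trans ?_
  rw [sum_sub_distrib, ← sum_div, ← sum_div, h2]
  linarith [div_le_div_of_nonneg_right h4 (by norm_num : (0 : ℝ) ≤ 2352)]

end Pool.Agent.Q10.DG
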