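import Pool.Agent.Q10.DG.Red

/-!
# Completeness of the reduction
-/

namespace Pool.Agent.Q10.DG

open Finset Pool.Agent.H243R3.TP

variable {φ : List Clause}

theorem adj_symm {I : Inst} {u v : ℕ} (h : Adj I u v) : Adj I v u := h.symm

theorem edges_tri {I : Inst} {a b d : ℕ} (h1 : Adj I a b) (h2 : Adj I a d) (h3 : Adj I b d) :
    #({a, b, d} : Finset ℕ) = 3 ∧ edgesIn I {a, b, d} = 3 := by
  have hab := h1.1
  have had := h2.1
  have hbd := h3.1
  have naa : ∀ u, ¬ Adj I u u := fun u h => h.1 rfl
  constructor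
  · rw [card_eq_three]
    exact ⟨a, b, d, hab, had, hbd, rfl⟩
  · have h := two_edges (I := I) {a, b, d}
    rw [sum_insert (by simp [hab, had]), sum_insert (by simp [hbd]), sum_singleton] at h
    have da : deg I {a, b, d} a = 2 := by
      unfold deg
      rw [filter_insert, if_neg (naa a), filter_insert, if_pos h1, filter_singleton, if_pos h2]
      exact card_pair hbd
    have db : deg I {a, b, d} b = 2 := by
      unfold deg
      rw [filter_insert, if_pos h1.symm, filter_insert, if_neg (naa b), filter_singleton,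
        if_pos h3]
      exact card_pair had
    have dd : deg I {a, b, d} d = 2 := by
      unfold deg
      rw [filter_insert, if_pos h2.symm, filter_insert, if_pos h3.symm, filter_singleton,
        if_neg (naa d)]
      exact card_pair hab
    omega

/-- The number of the ring triangle of a literal. -/
def idx (s : ℕ) : ℕ := 6 * (s / 3) + s % 3

/-- The number of the clause triangle that contains the free vertex of a literal. -/
def idF (k : ℕ → ℕ) (s : ℕ) : ℕ := 6 * (s / 3) + 3 + (s % 3 + 3 - k (s / 3)) % 3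

/-- The number of the triangle of a vertex. -/
def kap (φ : List Clause) (A : List ℕ) (k : ℕ → ℕ) (v : ℕ) : ℕ :=
  if v % 18 < 12 then
    if v % 18 % 4 = 0 then idx (if vr φ (3 * (v / 18) + v % 18 / 4) ∈ A then
      3 * (v / 18) + v % 18 / 4 else prv (vr φ) (np φ) (3 * (v / 18) + v % 18 / 4))
    else if v % 18 % 4 = 1 then idx (3 * (v / 18) + v % 18 / 4)
    else if v % 18 % 4 = 2 then
      if vr φ (3 * (v / 18) + v % 18 / 4) ∈ A then idx (3 * (v / 18) + v % 18 / 4)
      else idF k (3 * (v / 18) + v % 18 / 4)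
    else if vr φ (3 * (v / 18) + v % 18 / 4) ∈ A then idF k (3 * (v / 18) + v % 18 / 4)
      else idx (3 * (v / 18) + v % 18 / 4)
  else 6 * (v / 18) + 3 + (v % 18 - 12) / 2

variable {A : List ℕ} {k : ℕ → ℕ}

theorem kap_X (s : ℕ) : kap φ A k (X s) =
    idx (if vr φ s ∈ A then s else prv (vr φ) (np φ) s) := by
  have h := X_mod s
  have h2 : 3 * (X s / 18) + X s % 18 / 4 = s := X_idx s (j := 0) (by omega)
  unfold kap
  rw [if_pos (by omega), if_pos (by omega), h2]

theorem kap_Y (s : ℕ) : kap φ A k (X s + 1) = idx s := by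
  have h := X_add_mod s (j := 1) (by omega)
  have h2 := X_idx s (j := 1) (by omega)
  unfold kap
  rw [if_pos (by omega), if_neg (by omega), if_pos (by omega), h2]

theorem kap_U0 (s : ℕ) : kap φ A k (X s + 2) = if vr φ s ∈ A then idx s else idF k s := by
  have h := X_add_mod s (j := 2) (by omega)
  have h2 := X_idx s (j := 2) (by omega)
  unfold kap
  rw [if_pos (by omega), if_neg (by omega), if_neg (by omega), if_pos (by omega), h2]

theorem kap_U1 (s : ℕ) : kap φ A k (X s + 3) = if vr φ s ∈ A then idF k s else idx s := by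
  have h := X_add_mod s (j := 3) (by omega)
  have h2 := X_idx s (j := 3) (by omega)
  unfold kap
  rw [if_pos (by omega), if_neg (by omega), if_neg (by omega), if_neg (by omega), h2]

theorem kap_cl (c : ℕ) {j : ℕ} (hj : j < 6) : kap φ A k (18 * c + 12 + j) = 6 * c + 3 + j / 2 := by
  unfold kap
  rw [if_neg (by omega)]
  omega

/-- The three vertices of the triangle number `t`. -/
def ta (t : ℕ) : ℕ :=
  if t % 6 < 3 then X (3 * (t / 6) + t % 6) + 1 else 18 * (t / 6) + 12 + 2 * (t % 6 - 3)

/-- The second vertex. -/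
def tb (φ : List Clause) (A : List ℕ) (t : ℕ) : ℕ :=
  if t % 6 < 3 then
    X (3 * (t / 6) + t % 6) + (if vr φ (3 * (t / 6) + t % 6) ∈ A then 2 else 3)
  else 18 * (t / 6) + 12 + (2 * (t % 6 - 3) + 1)

/-- The third vertex. -/
def td (φ : List Clause) (A : List ℕ) (k : ℕ → ℕ) (t : ℕ) : ℕ :=
  if t % 6 < 3 then X (if vr φ (3 * (t / 6) + t % 6) ∈ A then 3 * (t / 6) + t % 6
    else nx φ (3 * (t / 6) + t % 6))
  else X (3 * (t / 6) + (k (t / 6) + (t % 6 - 3)) % 3) +
    (if vr φ (3 * (t / 6) + (k (t / 6) + (t % 6 - 3)) % 3) ∈ A then 3 else 2)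

/-- The triangle. -/
def tri (φ : List Clause) (A : List ℕ) (k : ℕ → ℕ) (t : ℕ) : Finset ℕ :=
  {ta t, tb φ A t, td φ A k t}

theorem kap_tri (hk : ∀ c, k c < 3) {t : ℕ} (ht : t < 6 * φ.length) {v : ℕ}
    (hv : v ∈ tri φ A k t) : kap φ A k v = t ∧ v < 18 * φ.length := by
  simp only [tri, mem_insert, mem_singleton] at hv
  unfold ta tb td at hv
  rcases lt_or_ge (t % 6) 3 with h6 | h6
  · simp only [if_pos h6] at hv
    obtain ⟨s, hs⟩ : ∃ s, s = 3 * (t / 6) + t % 6 := ⟨_, rfl⟩
    rw [← hs] at hv
    have hsn : s < np φ := by unfold np; omega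
    have hi : idx s = t := by unfold idx; omega
    rcases hv with rfl | rfl | rfl
    · exact ⟨by rw [kap_Y, hi], X_lt hsn (by omega)⟩
    · split_ifs with hA
      · exact ⟨by rw [kap_U0, if_pos hA, hi], X_lt hsn (by omega)⟩
      · exact ⟨by rw [kap_U1, if_neg hA, hi], X_lt hsn (by omega)⟩
    · split_ifs with hA
      · exact ⟨by rw [kap_X, if_pos hA, hi], X_lt (j := 0) hsn (by omega)⟩
      · have h1 : vr φ (nx φ s) = vr φ s := f_nxt hsn
        have h2 : prv (vr φ) (np φ) (nx φ s) = s := prv_nxt hsn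
        exact ⟨by rw [kap_X, h1, if_neg hA, h2, hi], X_lt (j := 0) (nxt_lt hsn) (by omega)⟩
  · simp only [if_neg (not_lt.2 h6)] at hv
    rcases hv with rfl | rfl | rfl
    · exact ⟨by rw [kap_cl _ (by omega)]; omega, by omega⟩
    · exact ⟨by rw [kap_cl _ (by omega)]; omega, by omega⟩
    · obtain ⟨c, hc⟩ : ∃ c, c = t / 6 := ⟨_, rfl⟩
      rw [← hc]
      have hkc := hk c
      obtain ⟨r, hr⟩ : ∃ r, r = (k c + (t % 6 - 3)) % 3 := ⟨_, rfl⟩
      rw [← hr]
      have hr3 : r < 3 := by omega
      have hsn : 3 * c + r < np φ := by unfold np; omega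
      have hF : idF k (3 * c + r) = t := by
        unfold idF
        have e1 : (3 * c + r) / 3 = c := by omega
        have e2 : (3 * c + r) % 3 = r := by omega
        rw [e1, e2]
        have : t % 6 = 3 ∨ t % 6 = 4 ∨ t % 6 = 5 := by omega
        have hk' : k c = 0 ∨ k c = 1 ∨ k c = 2 := by omega
        rcases this with h | h | h <;> rcases hk' with h' | h' | h' <;> rw [h, h'] at hr <;>
          rw [h', hr] <;> omega
      split_ifs with hA
      · exact ⟨by rw [kap_U1, if_pos hA, hF], X_lt hsn (by omega)⟩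
      · exact ⟨by rw [kap_U0, if_neg hA, hF], X_lt hsn (by omega)⟩

theorem mem_six {c r j : ℕ} (hr : r < 3) (hj : j = 2 ∨ j = 3) : X (3 * c + r) + j ∈ six c := by
  have h : X (3 * c + r) = 18 * c + 4 * r := by unfold X; omega
  rw [h]
  simp only [six, List.mem_cons, List.not_mem_nil, or_false]
  omega

theorem tri_adj (hk : ∀ c, k c < 3) (hsat : ∀ c < φ.length,
    (vr φ (3 * c + k c) ∈ A ↔ sn φ (3 * c + k c) = true)) {t : ℕ} (ht : t < 6 * φ.length) :
    Adj (inst φ) (ta t) (tb φ A t) ∧ Adj (inst φ) (ta t) (td φ A k t) ∧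
      Adj (inst φ) (tb φ A t) (td φ A k t) := by
  unfold ta tb td
  rcases lt_or_ge (t % 6) 3 with h6 | h6
  · simp only [if_pos h6]
    obtain ⟨s, hs⟩ : ∃ s, s = 3 * (t / 6) + t % 6 := ⟨_, rfl⟩
    rw [← hs]
    have hsn : s < np φ := by unfold np; omega
    have hYl : X s + 1 < 18 * φ.length := X_lt hsn (by omega)
    split_ifs with hA
    · refine ⟨adj_of_out hYl ?_, adj_of_out hYl ?_, adj_of_out (X_lt hsn (by omega)) ?_⟩
      · rw [out_Y]; simp
      · rw [out_Y]; simp
      · rw [out_U0]; simp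
    · refine ⟨adj_of_out hYl ?_, adj_of_out hYl ?_, adj_of_out (X_lt hsn (by omega)) ?_⟩
      · rw [out_Y]; simp
      · rw [out_Y]; simp
      · rw [out_U1]; simp
  · simp only [if_neg (not_lt.2 h6)]
    obtain ⟨c, hc⟩ : ∃ c, c = t / 6 := ⟨_, rfl⟩
    rw [← hc]
    have hkc := hk c
    have hcm : c < φ.length := by omega
    have hj : t % 6 = 3 ∨ t % 6 = 4 ∨ t % 6 = 5 := by omega
    rcases hj with hj | hj | hj
    · rw [hj]
      have e1 : (k c + (3 - 3)) % 3 = k c := by omega
      rw [e1]
      have htip : X (3 * c + k c) + (if vr φ (3 * c + k c) ∈ A then 3 else 2) =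
          tip φ (3 * c + k c) := by
        unfold tip
        congr 1
        exact if_congr (hsat c hcm) rfl rfl
      rw [htip]
      have hmem : tip φ (3 * c + k c) ∈ tips φ c := by
        have hk' : k c = 0 ∨ k c = 1 ∨ k c = 2 := by omega
        unfold tips
        rcases hk' with h | h | h <;> rw [h] <;> simp
      refine ⟨adj_of_out (by omega) ?_, adj_of_out (by omega) ?_, adj_of_out (by omega) ?_⟩
      · rw [show 18 * c + 12 + 2 * (3 - 3) = 18 * c + 12 from rfl, out_P]
        simp
      · rw [show 18 * c + 12 + 2 * (3 - 3) = 18 * c + 12 from rfl, out_P]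
        exact List.mem_cons_of_mem _ hmem
      · rw [show 18 * c + 12 + (2 * (3 - 3) + 1) = 18 * c + 13 from rfl, out_Q]
        exact hmem
    · rw [hj]
      have hmem : X (3 * c + (k c + (4 - 3)) % 3) +
          (if vr φ (3 * c + (k c + (4 - 3)) % 3) ∈ A then 3 else 2) ∈ six c := by
        refine mem_six (Nat.mod_lt _ (by omega)) ?_
        split_ifs <;> simp
      refine ⟨adj_of_out (by omega) ?_, adj_of_out (by omega) ?_, adj_of_out (by omega) ?_⟩
      · rw [show 18 * c + 12 + 2 * (4 - 3) = 18 * c + 14 from rfl, out_G1]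
        simp
      · rw [show 18 * c + 12 + 2 * (4 - 3) = 18 * c + 14 from rfl, out_G1]
        exact List.mem_cons_of_mem _ hmem
      · rw [show 18 * c + 12 + (2 * (4 - 3) + 1) = 18 * c + 15 from rfl, out_H1]
        exact hmem
    · rw [hj]
      have hmem : X (3 * c + (k c + (5 - 3)) % 3) +
          (if vr φ (3 * c + (k c + (5 - 3)) % 3) ∈ A then 3 else 2) ∈ six c := by
        refine mem_six (Nat.mod_lt _ (by omega)) ?_
        split_ifs <;> simp
      refine ⟨adj_of_out (by omega) ?_, adj_of_out (by omega) ?_, adj_of_out (by omega) ?_⟩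
      · rw [show 18 * c + 12 + 2 * (5 - 3) = 18 * c + 16 from rfl, out_G2]
        simp
      · rw [show 18 * c + 12 + 2 * (5 - 3) = 18 * c + 16 from rfl, out_G2]
        exact List.mem_cons_of_mem _ hmem
      · rw [show 18 * c + 12 + (2 * (5 - 3) + 1) = 18 * c + 17 from rfl, out_H2]
        exact hmem

theorem complete (h : numSat φ A = φ.length) :
    ∃ P : Finpartition (verts (inst φ)), density (inst φ) P = 6 * (φ.length : ℝ) := by
  classical
  obtain ⟨Q, hQ⟩ : ∃ Q : ℕ → Prop, Q = fun c => ∃ k < 3,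
    (vr φ (3 * c + k) ∈ A ↔ sn φ (3 * c + k) = true) := ⟨_, rfl⟩
  have hns := numSat_eq φ A Q (fun j _ => by rw [hQ])
  rw [np_div, h] at hns
  have hall : (range φ.length).filter Q = range φ.length :=
    eq_of_subset_of_card_le (filter_subset _ _) (by rw [← hns, card_range])
  have hall' : ∀ c < φ.length, ∃ k < 3, (vr φ (3 * c + k) ∈ A ↔ sn φ (3 * c + k) = true) := by
    intro c hc
    have h1 : c ∈ (range φ.length).filter Q := by rw [hall]; exact mem_range.2 hc
    have h2 := (mem_filter.1 h1).2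
    rw [hQ] at h2
    exact h2
  have hall2 : ∀ c, ∃ k < 3, (c < φ.length →
      (vr φ (3 * c + k) ∈ A ↔ sn φ (3 * c + k) = true)) := by
    intro c
    by_cases hc : c < φ.length
    · obtain ⟨k, hk, h1⟩ := hall' c hc
      exact ⟨k, hk, fun _ => h1⟩
    · exact ⟨0, by omega, fun h => absurd h hc⟩
  choose k hk hsat using hall2
  have hadj := fun t (ht : t < 6 * φ.length) => tri_adj (A := A) hk hsat ht
  have hE := fun t (ht : t < 6 * φ.length) =>
    edges_tri (hadj t ht).1 (hadj t ht).2.1 (hadj t ht).2.2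
  have hdis : ∀ t < 6 * φ.length, ∀ u < 6 * φ.length, ∀ v, v ∈ tri φ A k t → v ∈ tri φ A k u →
      t = u := by
    intro t ht u hu v hv hv'
    rw [← (kap_tri hk ht hv).1, ← (kap_tri hk hu hv').1]
  have hpd : (↑(range (6 * φ.length)) : Set ℕ).PairwiseDisjoint (tri φ A k) := by
    intro t ht u hu htu
    simp only [Function.onFun]
    rw [disjoint_left]
    intro v hv hv'
    rw [mem_coe, mem_range] at ht hu
    exact htu (hdis t ht u hu v hv hv')
  have hunion : (range (6 * φ.length)).biUnion (tri φ A k) = verts (inst φ) := by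
    refine eq_of_subset_of_card_le ?_ ?_
    · intro v hv
      obtain ⟨t, ht, hv⟩ := mem_biUnion.1 hv
      rw [verts_inst, mem_range]
      exact (kap_tri hk (mem_range.1 ht) hv).2
    · rw [card_biUnion hpd, verts_inst, card_range]
      have h3 : ∀ t ∈ range (6 * φ.length), #(tri φ A k t) = 3 := fun t ht =>
        (hE t (mem_range.1 ht)).1
      rw [Finset.sum_congr rfl h3, sum_const, card_range, smul_eq_mul]
      omega
  have hinj : Set.InjOn (tri φ A k) ↑(range (6 * φ.length)) := by
    intro t ht u hu htu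
    rw [mem_coe, mem_range] at ht hu
    have hne : ta t ∈ tri φ A k t := by simp [tri]
    have hne' := hne
    rw [htu] at hne'
    exact hdis t ht u hu _ hne hne'
  refine ⟨⟨(range (6 * φ.length)).image (tri φ A k), ?_, ?_, ?_⟩, ?_⟩
  · rw [Finset.supIndep_iff_pairwiseDisjoint]
    intro a ha b hb hab
    simp only [coe_image, Set.mem_image] at ha hb
    obtain ⟨t, ht, rfl⟩ := ha
    obtain ⟨u, hu, rfl⟩ := hb
    exact hpd ht hu fun h => hab (by rw [h])
  · rw [← hunion, Finset.sup_image, Finset.sup_eq_biUnion]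
    rfl
  · intro h
    obtain ⟨t, ht, h0⟩ := mem_image.1 h
    have hne : ta t ∈ tri φ A k t := by simp [tri]
    rw [h0] at hne
    exact absurd hne (notMem_empty _)
  · unfold density
    simp only
    rw [sum_image hinj]
    rw [Finset.sum_congr rfl (g := fun _ => (1 : ℝ)) fun t ht => ?_]
    · rw [sum_const, card_range, nsmul_eq_mul, mul_one]
      push_cast
      ring
    · have := hE t (mem_range.1 ht)
      unfold tri
      rw [this.1, this.2]
      norm_num

end Pool.Agent.Q10.DG
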