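import Pool.Agent.NPC.Defs

/-!
# Dense Graph Partition: definitions
-/

namespace Pool.Agent.Q10.DG

open Finset

/-- An instance of Dense Graph Partition: the number `n` of vertices, written in unary, and a list
of pairs of numbers.  The vertices are `0, …, n - 1`. -/
abbrev Inst : Type := List Unit × List (ℕ × ℕ)

/-- The vertex set of the graph. -/
def verts (I : Inst) : Finset ℕ := range I.1.length

/-- Adjacency: distinct numbers that form one of the listed pairs, in one of the two orders. -/
def Adj (I : Inst) (u v : ℕ) : Prop := u ≠ v ∧ ((u, v) ∈ I.2 ∨ (v, u) ∈ I.2)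

instance (I : Inst) (u v : ℕ) : Decidable (Adj I u v) := by unfold Adj; infer_instance

/-- The number `|E(P)|` of edges with both endpoints in `P`. -/
def edgesIn (I : Inst) (s : Finset ℕ) : ℕ := #{p ∈ s ×ˢ s | p.1 < p.2 ∧ Adj I p.1 p.2}

/-- The density `d(P) = ∑ |E(P_i)| / |P_i|` of a partition of the vertex set. -/
noncomputable def density (I : Inst) (P : Finpartition (verts I)) : ℝ :=
  ∑ s ∈ P.parts, (edgesIn I s : ℝ) / #s

/-- The partition of the vertex set given by a list of labels: two vertices `u`, `v` are in the
same part if the labels number `u` and number `v` in the list are equal. -/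
def ofLabels (I : Inst) (l : List ℕ) : Finpartition (verts I) where
  parts := (verts I).image fun u => {v ∈ verts I | l.getD v 0 = l.getD u 0}
  supIndep := by
    rw [Finset.supIndep_iff_pairwiseDisjoint]
    intro s hs t ht hst
    simp only [coe_image, Set.mem_image, mem_coe] at hs ht
    obtain ⟨u, hu, rfl⟩ := hs
    obtain ⟨w, hw, rfl⟩ := ht
    simp only [Function.onFun, id]
    rw [Finset.disjoint_left]
    intro v hv hv'
    rw [mem_filter] at hv hv'
    apply hst
    rw [← hv.2, ← hv'.2]
  sup_parts := by
    ext v
    simp only [Finset.mem_sup, id, mem_image]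
    constructor
    · rintro ⟨_, ⟨u, _, rfl⟩, hv⟩
      exact (mem_filter.1 hv).1
    · intro hv
      exact ⟨_, ⟨v, hv, rfl⟩, mem_filter.2 ⟨hv, rfl⟩⟩
  bot_notMem := by
    simp only [bot_eq_empty, mem_image, not_exists, not_and]
    intro u hu h
    have : u ∈ ({v ∈ verts I | l.getD v 0 = l.getD u 0} : Finset ℕ) := mem_filter.2 ⟨hu, rfl⟩
    rw [h] at this
    exact absurd this (notMem_empty _)

end Pool.Agent.Q10.DG
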