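import Pool.Agent.Q10.DG.Red

/-!
# Soundness of the reduction
-/

namespace Pool.Agent.Q10.DG

open Finset Pool.Agent.H243R3.TP

variable {φ : List Clause}

theorem hcol {p : Finset ℕ} : ∀ u ∈ p, ∀ v ∈ p, Adj (inst φ) u v → col u ≠ col v :=
  fun _ _ _ _ h => adj_col h

theorem exists_col {p : Finset ℕ} (hp : Perfect (inst φ) p) {i j : ℕ} (hi : i < 3) (hj : j < 3)
    {v : ℕ} (hv : v ∈ p) (hvi : col v = i) : ∃ w ∈ p, col w = j := by
  obtain ⟨e1, e2⟩ := hp.cn_eq (col := col) hcol fun u _ => col_lt u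
  have h1 : 0 < cn col p i := card_pos.2 ⟨v, mem_filter.2 ⟨hv, hvi⟩⟩
  have h2 : cn col p j = cn col p i := by
    interval_cases i <;> interval_cases j <;> omega
  rw [← h2] at h1
  obtain ⟨w, hw⟩ := card_pos.1 h1
  exact ⟨w, (mem_filter.1 hw).1, (mem_filter.1 hw).2⟩

/-- The part of the ring vertex `Y s`, if it is perfect. -/
theorem ring_part {p : Finset ℕ} {s : ℕ} (hp : Perfect (inst φ) p) (hY : X s + 1 ∈ p) :
    (∀ t, X t + 1 ∈ p → t = s) ∧
    ((X s + 2 ∈ p ∧ X s + 3 ∉ p ∧ X s ∈ p) ∨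
      (X s + 3 ∈ p ∧ X s + 2 ∉ p ∧ X (nx φ s) ∈ p)) := by
  have h3 : ∀ u ∈ p, col u < 3 := fun u _ => col_lt u
  obtain ⟨e1, e2⟩ := hp.cn_eq (col := col) hcol h3
  have c0 : ∀ t, col (X t) = 0 := fun t => by simpa using col_X t (j := 0) (by omega)
  have c1 : ∀ t, col (X t + 1) = 1 := fun t => by simpa using col_X t (j := 1) (by omega)
  have c2 : ∀ t, col (X t + 2) = 2 := fun t => by simpa using col_X t (j := 2) (by omega)
  have c3 : ∀ t, col (X t + 3) = 2 := fun t => by simpa using col_X t (j := 3) (by omega)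
  have aY : ∀ v ∈ p, col v ≠ 1 → v = X s ∨ v = X s + 2 ∨ v = X (nx φ s) ∨ v = X s + 3 :=
    fun v hv hc => adj_Y (hp.adj hcol h3 hY hv (by rw [c1]; exact fun h => hc h.symm))
  have z0 : ∀ v ∈ p, col v = 0 → v = X s ∨ v = X (nx φ s) := by
    intro v hv hc
    rcases aY v hv (by omega) with h | h | h | h
    · exact Or.inl h
    · rw [h, c2] at hc; omega
    · exact Or.inr h
    · rw [h, c3] at hc; omega
  have z2 : ∀ v ∈ p, col v = 2 → v = X s + 2 ∨ v = X s + 3 := by
    intro v hv hc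
    rcases aY v hv (by omega) with h | h | h | h
    · rw [h, c0] at hc; omega
    · exact Or.inl h
    · rw [h, c0] at hc; omega
    · exact Or.inr h
  have hne : ¬ (X s + 2 ∈ p ∧ X s + 3 ∈ p) := by
    rintro ⟨h2, h3'⟩
    have hc2 : 1 < cn col p 2 :=
      one_lt_card.2 ⟨X s + 2, mem_filter.2 ⟨h2, c2 s⟩, X s + 3, mem_filter.2 ⟨h3', c3 s⟩, by omega⟩
    rw [← e2, ← e1] at hc2
    obtain ⟨a, ha, b, hb, hab⟩ := one_lt_card.1 hc2
    rw [mem_filter] at ha hb
    have hX : X s ∈ p ∧ X s ≠ X (nx φ s) := by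
      rcases z0 a ha.1 ha.2 with h | h <;> rcases z0 b hb.1 hb.2 with h' | h'
      · exact absurd (h.trans h'.symm) hab
      · exact ⟨h ▸ ha.1, by rw [← h, ← h']; exact hab⟩
      · exact ⟨h' ▸ hb.1, by rw [← h, ← h']; exact hab.symm⟩
      · exact absurd (h.trans h'.symm) hab
    have := adj_X_U1 (hp.adj hcol h3 hX.1 h3' (by rw [c0, c3]; omega))
    exact hX.2 (congrArg X this)
  have hex0 := exists_col hp (i := 1) (j := 0) (by omega) (by omega) hY (c1 s)
  have hex2 := exists_col hp (i := 1) (j := 2) (by omega) (by omega) hY (c1 s)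
  constructor
  · intro t ht
    have hc2 : cn col p 2 ≤ 1 := by
      refine card_le_one.2 fun a ha b hb => ?_
      rw [mem_filter] at ha hb
      rcases z2 a ha.1 ha.2 with h | h <;> rcases z2 b hb.1 hb.2 with h' | h'
      · rw [h, h']
      · exact absurd ⟨h ▸ ha.1, h' ▸ hb.1⟩ hne
      · exact absurd ⟨h' ▸ hb.1, h ▸ ha.1⟩ hne
      · rw [h, h']
    rw [← e2] at hc2
    have := card_le_one.1 hc2 (X t + 1) (mem_filter.2 ⟨ht, c1 t⟩) (X s + 1)
      (mem_filter.2 ⟨hY, c1 s⟩)
    exact (X_inj (by omega) (by omega) this).1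
  · obtain ⟨w, hw, hw0⟩ := hex0
    obtain ⟨x, hx, hx2⟩ := hex2
    rcases z2 x hx hx2 with h | h
    · left
      rw [h] at hx
      refine ⟨hx, fun h' => hne ⟨hx, h'⟩, ?_⟩
      rcases z0 w hw hw0 with h' | h'
      · rw [← h']; exact hw
      · rw [h'] at hw
        have := adj_X_U0 (hp.adj hcol h3 hw hx (by rw [c0, c2]; omega))
        rw [this] at hw
        exact hw
    · right
      rw [h] at hx
      refine ⟨hx, fun h' => hne ⟨h', hx⟩, ?_⟩
      rcases z0 w hw hw0 with h' | h'
      · rw [h'] at hw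
        have := adj_X_U1 (hp.adj hcol h3 hw hx (by rw [c0, c3]; omega))
        rw [← this]
        exact hw
      · rw [← h']; exact hw

/-- The part of the first clause vertex, if it is perfect. -/
theorem clause_part {p : Finset ℕ} {c : ℕ} (hp : Perfect (inst φ) p) (hP : 18 * c + 12 ∈ p) :
    (∀ t, X t + 1 ∉ p) ∧ ∃ k < 3, tip φ (3 * c + k) ∈ p := by
  have h3 : ∀ u ∈ p, col u < 3 := fun u _ => col_lt u
  have cP : col (18 * c + 12) = 0 := by unfold col; rw [if_neg (by omega)]; omega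
  have cQ : col (18 * c + 13) = 1 := by unfold col; rw [if_neg (by omega)]; omega
  constructor
  · intro t ht
    have c1 : col (X t + 1) = 1 := by simpa using col_X t (j := 1) (by omega)
    rcases adj_P (hp.adj hcol h3 hP ht (by rw [cP, c1]; omega)) with h | h
    · have h4 := X_add_mod t (j := 1) (by omega)
      rw [h] at h4
      omega
    · have := col_tips h
      omega
  · obtain ⟨w, hw, hw2⟩ := exists_col hp (i := 0) (j := 2) (by omega) (by omega) hP cP
    rcases adj_P (hp.adj hcol h3 hP hw (by rw [cP, hw2]; omega)) with h | h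
    · rw [h, cQ] at hw2
      omega
    · simp only [tips, List.mem_cons, List.not_mem_nil, or_false] at h
      rcases h with h | h | h
      · exact ⟨0, by omega, by rw [add_zero, ← h]; exact hw⟩
      · exact ⟨1, by omega, by rw [← h]; exact hw⟩
      · exact ⟨2, by omega, by rw [← h]; exact hw⟩

/-- The assignment read off from a partition. -/
def asg (φ : List Clause) (S : ℕ → Bool) : List ℕ := ((List.range (np φ)).filter S).map (vr φ)

theorem mem_asg {S : ℕ → Bool} {v : ℕ} :
    v ∈ asg φ S ↔ ∃ t, t < np φ ∧ S t = true ∧ vr φ t = v := by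
  simp only [asg, List.mem_map, List.mem_filter, List.mem_range, and_assoc]

variable (P : Finpartition (verts (inst φ)))

theorem mem_verts {u : ℕ} : u ∈ verts (inst φ) ↔ u < 18 * φ.length := by
  rw [verts_inst, mem_range]

theorem lt_verts {s j : ℕ} (hs : s < np φ) (hj : j < 4) : X s + j ∈ verts (inst φ) :=
  mem_verts.2 (X_lt hs hj)

theorem part_of_mem {u v : ℕ} (hu : u ∈ P.part v) : P.part u = P.part v := by
  have h1 : v ∈ verts (inst φ) := P.part_nonempty.1 ⟨u, hu⟩
  exact P.part_eq_of_mem (P.part_mem.2 h1) hu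

theorem part_eq {u v w : ℕ} (hu : u ∈ P.part v) (hu' : u ∈ P.part w) : P.part v = P.part w := by
  rw [← part_of_mem P hu, part_of_mem P hu']

variable {S : ℕ → Bool}

/-- If everything that concerns a clause is perfect, the clause is satisfied. -/
theorem clause_ok (hS : ∀ s, s < np φ → (S s = true ↔ X s + 2 ∈ P.part (X s + 1))) {c : ℕ}
    (hc : c < φ.length) (hP : Perfect (inst φ) (P.part (18 * c + 12)))
    (hY : ∀ k < 3, ∀ t < np φ, vr φ t = vr φ (3 * c + k) →
      Perfect (inst φ) (P.part (X t + 1))) :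
    ∃ k < 3, (vr φ (3 * c + k) ∈ asg φ S ↔ sn φ (3 * c + k) = true) := by
  have hPv : 18 * c + 12 ∈ verts (inst φ) := mem_verts.2 (by omega)
  obtain ⟨h1, k, hk, h2⟩ := clause_part hP (P.mem_part hPv)
  refine ⟨k, hk, ?_⟩
  obtain ⟨s, hs⟩ : ∃ s, s = 3 * c + k := ⟨_, rfl⟩
  have hY' := hY k hk
  rw [← hs] at h2 hY' ⊢
  have hsn : s < np φ := by unfold np; omega
  have hYm : ∀ t, t < np φ → X t + 1 ∈ P.part (X t + 1) := fun t ht =>
    P.mem_part (lt_verts ht (by omega))
  have htip : tip φ s ∉ P.part (X s + 1) := by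
    intro h
    have := part_eq P h h2
    exact h1 s (by rw [← this]; exact hYm s hsn)
  obtain ⟨_, h3⟩ := ring_part (hY' s hsn rfl) (hYm s hsn)
  cases hsg : sn φ s with
  | true =>
    simp only [iff_true]
    unfold tip at htip
    rw [if_pos hsg] at htip
    rcases h3 with h3 | h3
    · exact mem_asg.2 ⟨s, hsn, (hS s hsn).2 h3.1, rfl⟩
    · exact absurd h3.1 htip
  | false =>
    simp only [Bool.false_eq_true, iff_false]
    have e2 : tip φ s = X s + 2 := by unfold tip; rw [if_neg (by rw [hsg]; simp)]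
    rw [e2] at htip
    have key : ∀ t, t < np φ → vr φ t = vr φ s → X t + 2 ∉ P.part (X t + 1) := by
      refine nxt_trans (S := fun t => X t + 2 ∉ P.part (X t + 1)) hsn ?_ htip
      intro t ht hv hSt hc'
      have ht' : nxt (vr φ) (np φ) t < np φ := nxt_lt ht
      have hv' : vr φ (nxt (vr φ) (np φ) t) = vr φ s := (f_nxt ht).trans hv
      obtain ⟨a1, a2⟩ := ring_part (hY' t ht hv) (hYm t ht)
      obtain ⟨b1, b2⟩ := ring_part (hY' _ ht' hv') (hYm _ ht')
      rcases b2 with b2 | b2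
      · rcases a2 with a2 | a2
        · exact hSt a2.1
        · have hq := part_eq P (u := X (nx φ t)) a2.2.2 b2.2.2
          have := b1 t (by rw [← hq]; exact hYm t ht)
          rw [← this] at hc'
          exact hSt hc'
      · exact b2.2.1 hc'
    intro hm
    obtain ⟨t, ht, hSt, hv⟩ := mem_asg.1 hm
    exact key t ht hv ((hS t ht).1 hSt)

theorem sound (hS : ∀ s, s < np φ → (S s = true ↔ X s + 2 ∈ P.part (X s + 1))) {B0 : ℕ}
    (hB0 : 1 ≤ B0) (hocc : ∀ v, (occ φ).count v ≤ B0) :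
    density (inst φ) P ≤ 6 * (φ.length : ℝ) -
      ((φ.length : ℝ) - numSat φ (asg φ S)) / (2352 * B0) := by
  classical
  obtain ⟨bY, hbY⟩ : ∃ bY, bY = (range (np φ)).filter fun s =>
    ¬ Perfect (inst φ) (P.part (X s + 1)) := ⟨_, rfl⟩
  obtain ⟨bP, hbP⟩ : ∃ bP, bP = (range φ.length).filter fun c =>
    ¬ Perfect (inst φ) (P.part (18 * c + 12)) := ⟨_, rfl⟩
  have mY : ∀ s, s ∈ bY ↔ s < np φ ∧ ¬ Perfect (inst φ) (P.part (X s + 1)) := by
    intro s; rw [hbY, mem_filter, mem_range]
  have mP : ∀ c, c ∈ bP ↔ c < φ.length ∧ ¬ Perfect (inst φ) (P.part (18 * c + 12)) := by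
    intro c; rw [hbP, mem_filter, mem_range]
  have hdis : Disjoint (bY.image fun s => X s + 1) (bP.image fun c => 18 * c + 12) := by
    rw [disjoint_left]
    intro a ha hb
    obtain ⟨s, _, hs⟩ := mem_image.1 ha
    obtain ⟨c, _, hc⟩ := mem_image.1 hb
    have h4 := X_add_mod s (j := 1) (by omega)
    rw [show X s + 1 = 18 * c + 12 from hs.trans hc.symm] at h4
    omega
  have hcard : #((bY.image fun s => X s + 1) ∪ bP.image fun c => 18 * c + 12) = #bY + #bP := by
    rw [card_union_of_disjoint hdis, card_image_of_injOn, card_image_of_injOn]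
    · intro a _ b _ h
      simp only at h
      omega
    · intro a _ b _ h
      exact (X_inj (by omega) (by omega) h).1
  have hd := density_le (I := inst φ) (col := col) (fun u v h _ _ => adj_col h) col_lt edges_le' P
    ((bY.image fun s => X s + 1) ∪ bP.image fun c => 18 * c + 12) (by
      intro v hv
      rw [mem_union, mem_image, mem_image] at hv
      rcases hv with ⟨s, hs, rfl⟩ | ⟨c, hc, rfl⟩
      · rw [mY] at hs
        exact ⟨lt_verts hs.1 (by omega), hs.2⟩
      · rw [mP] at hc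
        exact ⟨mem_verts.2 (by omega), hc.2⟩)
  rw [hcard] at hd
  have hlen : ((inst φ).1.length : ℝ) = 18 * φ.length := by simp [inst]
  rw [hlen] at hd
  -- the unsatisfied clauses
  obtain ⟨Q, hQ⟩ : ∃ Q : ℕ → Prop, Q = fun c => ∃ k < 3,
    (vr φ (3 * c + k) ∈ asg φ S ↔ sn φ (3 * c + k) = true) := ⟨_, rfl⟩
  have hns := numSat_eq φ (asg φ S) Q (fun j _ => by rw [hQ])
  rw [np_div] at hns
  have hsplit : #((range φ.length).filter Q) + #((range φ.length).filter fun c => ¬ Q c) =
      φ.length := by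
    rw [card_filter_add_card_filter_not, card_range]
  have hsub : ((range φ.length).filter fun c => ¬ Q c) ⊆ bP ∪ bY.biUnion fun t =>
      ((range (np φ)).filter fun s => vr φ s = vr φ t).image fun s => s / 3 := by
    intro c hc
    rw [mem_filter, mem_range] at hc
    rw [mem_union]
    by_contra hn
    push Not at hn
    obtain ⟨n1, n2⟩ := hn
    rw [mP] at n1
    push Not at n1
    apply hc.2
    rw [hQ]
    refine clause_ok P hS hc.1 (n1 hc.1) fun k hk t ht hv => ?_
    by_contra hnp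
    apply n2
    rw [mem_biUnion]
    refine ⟨t, (mY t).2 ⟨ht, hnp⟩, mem_image.2 ⟨3 * c + k, mem_filter.2 ⟨mem_range.2 ?_, hv.symm⟩,
      by omega⟩⟩
    unfold np
    omega
  have h5 : #((range φ.length).filter fun c => ¬ Q c) ≤ #bP + #bY * B0 := by
    refine (card_le_card hsub).trans ((card_union_le _ _).trans (Nat.add_le_add_left ?_ _))
    refine card_biUnion_le.trans ?_
    rw [← smul_eq_mul, ← sum_const]
    refine sum_le_sum fun t _ => card_image_le.trans ?_
    rw [card_occ]
    exact hocc _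
  have h6 : φ.length ≤ numSat φ (asg φ S) + (#bY + #bP) * B0 := by
    have : #bP ≤ #bP * B0 := Nat.le_mul_of_pos_right _ hB0
    rw [add_mul]
    omega
  have h7 : (φ.length : ℝ) - numSat φ (asg φ S) ≤ ((#bY : ℝ) + #bP) * B0 := by
    have : (φ.length : ℝ) ≤ numSat φ (asg φ S) + ((#bY : ℝ) + #bP) * B0 := by exact_mod_cast h6
    linarith
  have hB0' : (0 : ℝ) < B0 := by exact_mod_cast hB0
  have h8 : ((φ.length : ℝ) - numSat φ (asg φ S)) / (2352 * B0) ≤ ((#bY : ℝ) + #bP) / 2352 := by
    rw [div_le_div_iff₀ (by positivity) (by norm_num)]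
    nlinarith
  push_cast at hd
  linarith

end Pool.Agent.Q10.DG
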