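import Pool.Agent.H243R3.TP.PolyB
import Pool.Agent.Q10.DG.Sound

/-!
# The reduction is computable in polynomial time
-/

namespace Pool.Agent.NPC.DG10

open Pool.Agent.Q10.DG Pool.Agent.NPC.TP Pool.Agent.H243R3.TP

variable {α : Type} [TEnc α]

theorem poly_X {l : α → ℕ} (hl : Poly l) : Poly (fun a => X (l a)) := by
  unfold X
  exact Poly.add (Poly.mul (Poly.const 18) (Poly.div hl (Poly.const 3)))
    (Poly.mul (Poly.const 4) (Poly.mod hl (Poly.const 3)))

theorem poly_nx {F : α → List Clause} {l : α → ℕ} (hF : Poly F) (hl : Poly l) :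
    Poly (fun a => nx (F a) (l a)) := poly_nxt hF hl

theorem poly_tip {F : α → List Clause} {l : α → ℕ} (hF : Poly F) (hl : Poly l) :
    Poly (fun a => tip (F a) (l a)) := by
  unfold tip
  exact Poly.add (poly_X hl) (Poly.ite (Poly.decide_bool (poly_sn hF hl)) (Poly.const 3)
    (Poly.const 2))

theorem poly_tips {F : α → List Clause} {c : α → ℕ} (hF : Poly F) (hc : Poly c) :
    Poly (fun a => tips (F a) (c a)) := by
  have h3 : Poly (fun a => 3 * c a) := Poly.mul (Poly.const 3) hc
  unfold tips
  exact Poly.cons (poly_tip hF h3) (Poly.cons (poly_tip hF (Poly.add h3 (Poly.const 1)))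
    (Poly.cons (poly_tip hF (Poly.add h3 (Poly.const 2))) (Poly.const [])))

theorem poly_six {c : α → ℕ} (hc : Poly c) : Poly (fun a => six (c a)) := by
  have h3 : Poly (fun a => 18 * c a) := Poly.mul (Poly.const 18) hc
  have h := fun k => Poly.add h3 (Poly.const (α := α) (k : ℕ))
  unfold six
  exact Poly.cons (h 2) (Poly.cons (h 3) (Poly.cons (h 6) (Poly.cons (h 7)
    (Poly.cons (h 10) (Poly.cons (h 11) (Poly.const []))))))

theorem poly_out {F : α → List Clause} {u : α → ℕ} (hF : Poly F) (hu : Poly u) :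
    Poly (fun a => out (F a) (u a)) := by
  have c := fun m => Poly.const (α := α) (m : ℕ)
  have hd : Poly (fun a => u a / 18) := Poly.div hu (c 18)
  have hm : Poly (fun a => u a % 18) := Poly.mod hu (c 18)
  have hm4 : Poly (fun a => u a % 18 % 4) := Poly.mod hm (c 4)
  have hs : Poly (fun a => 3 * (u a / 18) + u a % 18 / 4) :=
    Poly.add (Poly.mul (c 3) hd) (Poly.div hm (c 4))
  have hX := poly_X hs
  have hN := poly_X (poly_nx hF hs)
  have hb := fun m => Poly.add (Poly.mul (c 18) hd) (c m)
  unfold out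
  refine Poly.ite (Poly.decide_lt hm (c 12)) ?_ ?_
  · refine Poly.ite (Poly.decide_eq hm4 (c 0)) (Poly.const []) (Poly.ite (Poly.decide_eq hm4 (c 1))
      ?_ (Poly.ite (Poly.decide_eq hm4 (c 2)) ?_ ?_))
    · exact Poly.cons hX (Poly.cons (Poly.add hX (c 2)) (Poly.cons hN
        (Poly.cons (Poly.add hX (c 3)) (Poly.const []))))
    · exact Poly.cons hX (Poly.const [])
    · exact Poly.cons hN (Poly.const [])
  · refine Poly.ite (Poly.decide_eq hm (c 12)) (Poly.cons (hb 13) (poly_tips hF hd))
      (Poly.ite (Poly.decide_eq hm (c 13)) (poly_tips hF hd)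
      (Poly.ite (Poly.decide_eq hm (c 14)) (Poly.cons (hb 15) (poly_six hd))
      (Poly.ite (Poly.decide_eq hm (c 15)) (poly_six hd)
      (Poly.ite (Poly.decide_eq hm (c 16)) (Poly.cons (hb 17) (poly_six hd))
      (poly_six hd)))))

theorem upoly_m {F : α → List Clause} (hF : Poly F) : UPoly (fun a => 18 * (F a).length) :=
  UPoly.mul (UPoly.const 18) (UPoly.length hF)

theorem poly_edg {F : α → List Clause} (hF : Poly F) : Poly (fun a => edg (F a)) := by
  unfold edg
  refine Poly.flatMap (F := fun a u => (out (F a) u).map fun v => (u, v)) (upoly_m hF).range ?_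
  exact Poly.map (F := fun (p : α × ℕ) v => (p.2, v))
    (poly_out (hF.comp (Poly.fst Poly.id)) (Poly.snd Poly.id))
    (Poly.pair (Poly.snd (Poly.fst Poly.id)) (Poly.snd Poly.id))

theorem poly_inst {F : α → List Clause} (hF : Poly F) : Poly (fun a => inst (F a)) := by
  unfold inst
  exact Poly.pair (upoly_m hF) (poly_edg hF)

/-- The positions at which the labels of the vertices `X s + 1` and `X s + 2` are equal. -/
def lab (l : List ℕ) (s : ℕ) : Bool := decide (l.getD (X s + 2) 0 = l.getD (X s + 1) 0)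

theorem poly_asg {F : α → List Clause} {l : α → List ℕ} (hF : Poly F) (hl : Poly l) :
    Poly (fun a => asg (F a) (lab (l a))) := by
  unfold asg
  refine Poly.map (F := fun a s => vr (F a) s) ?_ (poly_vr (hF.comp (Poly.fst Poly.id))
    (Poly.snd Poly.id))
  refine Poly.filter (p := fun a s => lab (l a) s) (upoly_np hF).range ?_
  have hX : Poly (fun p : α × ℕ => X p.2) := poly_X (Poly.snd Poly.id)
  have hl' : Poly (fun p : α × ℕ => l p.1) := hl.comp (Poly.fst Poly.id)
  unfold lab
  exact Poly.decide_eq (Poly.getD hl' (Poly.add hX (Poly.const 2)) (Poly.const 0))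
    (Poly.getD hl' (Poly.add hX (Poly.const 1)) (Poly.const 0))

theorem poly_test (K : ℕ) {alg : Inst → List ℕ} (halg : Poly alg) :
    Poly (fun φ : List Clause =>
      decide (K * (φ.length - numSat φ (asg φ (lab (alg (inst φ))))) < φ.length)) := by
  have hid : Poly (fun φ : List Clause => φ) := Poly.id
  exact Poly.decide_lt (Poly.mul (Poly.const K) (Poly.sub (Poly.length hid)
    (poly_numSat hid (poly_asg hid (halg.comp (poly_inst hid)))))) (Poly.length hid)

/-- The labels describe the parts. -/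
theorem lab_spec {φ : List Clause} (l : List ℕ) {s : ℕ} (hs : s < np φ) :
    lab l s = true ↔ X s + 2 ∈ (ofLabels (inst φ) l).part (X s + 1) := by
  have h1 : X s + 1 ∈ Q10.DG.verts (inst φ) := lt_verts hs (by omega)
  have h2 : X s + 2 ∈ Q10.DG.verts (inst φ) := lt_verts hs (by omega)
  have hp : (ofLabels (inst φ) l).part (X s + 1) =
      (Q10.DG.verts (inst φ)).filter fun v => l.getD v 0 = l.getD (X s + 1) 0 := by
    refine Finpartition.part_eq_of_mem _ ?_ ?_
    · exact Finset.mem_image.2 ⟨_, h1, rfl⟩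
    · exact Finset.mem_filter.2 ⟨h1, rfl⟩
  rw [hp, Finset.mem_filter, lab, decide_eq_true_eq]
  exact ⟨fun h => ⟨h2, h⟩, fun h => h.2⟩

end Pool.Agent.NPC.DG10
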