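import Pool.Agent.H243R3.TP.Form
import Pool.Agent.H243R3.TP.Cyc
import Pool.Agent.Q10.DG.Bound

/-!
# The reduction from 3-satisfiability to Dense Graph Partition
-/

namespace Pool.Agent.Q10.DG

open Finset Pool.Agent.H243R3.TP

/-- The next literal with the same variable, cyclically. -/
def nx (φ : List Clause) (s : ℕ) : ℕ := nxt (vr φ) (np φ) s

/-- The first vertex of the literal number `s`; the four vertices `X s`, `X s + 1`, `X s + 2`,
`X s + 3` belong to this literal. -/
def X (s : ℕ) : ℕ := 18 * (s / 3) + 4 * (s % 3)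

/-- The vertex that is free if the literal number `s` is true. -/
def tip (φ : List Clause) (s : ℕ) : ℕ := X s + (if sn φ s then 3 else 2)

/-- The three vertices that are free if the literals of the clause number `c` are true. -/
def tips (φ : List Clause) (c : ℕ) : List ℕ := [tip φ (3 * c), tip φ (3 * c + 1), tip φ (3 * c + 2)]

/-- The six tips of the clause number `c`. -/
def six (c : ℕ) : List ℕ :=
  [18 * c + 2, 18 * c + 3, 18 * c + 6, 18 * c + 7, 18 * c + 10, 18 * c + 11]

/-- The edges of the graph, ordered by one endpoint. -/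
def out (φ : List Clause) (u : ℕ) : List ℕ :=
  if u % 18 < 12 then
    if u % 18 % 4 = 0 then []
    else if u % 18 % 4 = 1 then [X (3 * (u / 18) + u % 18 / 4), X (3 * (u / 18) + u % 18 / 4) + 2,
      X (nx φ (3 * (u / 18) + u % 18 / 4)), X (3 * (u / 18) + u % 18 / 4) + 3]
    else if u % 18 % 4 = 2 then [X (3 * (u / 18) + u % 18 / 4)]
    else [X (nx φ (3 * (u / 18) + u % 18 / 4))]
  else if u % 18 = 12 then (18 * (u / 18) + 13) :: tips φ (u / 18)
  else if u % 18 = 13 then tips φ (u / 18)
  else if u % 18 = 14 then (18 * (u / 18) + 15) :: six (u / 18)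
  else if u % 18 = 15 then six (u / 18)
  else if u % 18 = 16 then (18 * (u / 18) + 17) :: six (u / 18)
  else six (u / 18)

/-- The list of edges. -/
def edg (φ : List Clause) : List (ℕ × ℕ) :=
  (List.range (18 * φ.length)).flatMap fun u => (out φ u).map fun v => (u, v)

/-- The graph. -/
def inst (φ : List Clause) : Inst := (List.replicate (18 * φ.length) (), edg φ)

/-- The colours. -/
def col (u : ℕ) : ℕ := if u % 18 < 12 then min (u % 18 % 4) 2 else u % 18 % 2

theorem col_lt (u : ℕ) : col u < 3 := by unfold col; split_ifs <;> omega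

theorem X_mod (s : ℕ) : X s % 18 = 4 * (s % 3) := by unfold X; omega

theorem X_add_mod (s : ℕ) {j : ℕ} (hj : j < 4) : (X s + j) % 18 = 4 * (s % 3) + j := by
  unfold X; omega

theorem X_add_div (s : ℕ) {j : ℕ} (hj : j < 4) : (X s + j) / 18 = s / 3 := by unfold X; omega

theorem X_idx (s : ℕ) {j : ℕ} (hj : j < 4) :
    3 * ((X s + j) / 18) + (X s + j) % 18 / 4 = s := by unfold X; omega

theorem col_X (s : ℕ) {j : ℕ} (hj : j < 4) : col (X s + j) = min j 2 := by
  have h := X_add_mod s hj
  unfold col
  rw [if_pos (by omega), h]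
  congr 1
  omega

theorem X_inj {s t i j : ℕ} (hi : i < 4) (hj : j < 4) (h : X s + i = X t + j) : s = t ∧ i = j := by
  have h1 := X_idx s hi
  have h2 := X_idx t hj
  rw [h, h2] at h1
  refine ⟨h1.symm, ?_⟩
  subst h1
  omega

theorem X_lt {s m : ℕ} (h : s < 3 * m) {j : ℕ} (hj : j < 4) : X s + j < 18 * m := by
  unfold X; omega

variable {φ : List Clause}

theorem out_Y (s : ℕ) : out φ (X s + 1) = [X s, X s + 2, X (nx φ s), X s + 3] := by
  have h := X_add_mod s (j := 1) (by omega)
  have h2 := X_idx s (j := 1) (by omega)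
  unfold out
  rw [if_pos (by omega), if_neg (by omega), if_pos (by omega), h2]

theorem out_X (s : ℕ) : out φ (X s) = [] := by
  have h := X_mod s
  unfold out
  rw [if_pos (by omega), if_pos (by omega)]

theorem out_U0 (s : ℕ) : out φ (X s + 2) = [X s] := by
  have h := X_add_mod s (j := 2) (by omega)
  have h2 := X_idx s (j := 2) (by omega)
  unfold out
  rw [if_pos (by omega), if_neg (by omega), if_neg (by omega), if_pos (by omega), h2]

theorem out_U1 (s : ℕ) : out φ (X s + 3) = [X (nx φ s)] := by
  have h := X_add_mod s (j := 3) (by omega)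
  have h2 := X_idx s (j := 3) (by omega)
  unfold out
  rw [if_pos (by omega), if_neg (by omega), if_neg (by omega), if_neg (by omega), h2]

theorem out_P (c : ℕ) : out φ (18 * c + 12) = (18 * c + 13) :: tips φ c := by
  have h : (18 * c + 12) % 18 = 12 := by omega
  have h2 : (18 * c + 12) / 18 = c := by omega
  unfold out
  rw [if_neg (by omega), if_pos h, h2]

theorem out_Q (c : ℕ) : out φ (18 * c + 13) = tips φ c := by
  have h : (18 * c + 13) % 18 = 13 := by omega
  have h2 : (18 * c + 13) / 18 = c := by omega
  unfold out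
  rw [if_neg (by omega), if_neg (by omega), if_pos h, h2]

theorem out_G1 (c : ℕ) : out φ (18 * c + 14) = (18 * c + 15) :: six c := by
  have h : (18 * c + 14) % 18 = 14 := by omega
  have h2 : (18 * c + 14) / 18 = c := by omega
  unfold out
  rw [if_neg (by omega), if_neg (by omega), if_neg (by omega), if_pos h, h2]

theorem out_H1 (c : ℕ) : out φ (18 * c + 15) = six c := by
  have h : (18 * c + 15) % 18 = 15 := by omega
  have h2 : (18 * c + 15) / 18 = c := by omega
  unfold out
  rw [if_neg (by omega), if_neg (by omega), if_neg (by omega), if_neg (by omega), if_pos h, h2]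

theorem out_G2 (c : ℕ) : out φ (18 * c + 16) = (18 * c + 17) :: six c := by
  have h : (18 * c + 16) % 18 = 16 := by omega
  have h2 : (18 * c + 16) / 18 = c := by omega
  unfold out
  rw [if_neg (by omega), if_neg (by omega), if_neg (by omega), if_neg (by omega),
    if_neg (by omega), if_pos h, h2]

theorem out_H2 (c : ℕ) : out φ (18 * c + 17) = six c := by
  have h2 : (18 * c + 17) / 18 = c := by omega
  unfold out
  rw [if_neg (by omega), if_neg (by omega), if_neg (by omega), if_neg (by omega),
    if_neg (by omega), if_neg (by omega), h2]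

/-- The possible vertices. -/
theorem vertex_cases (u : ℕ) : (∃ s j, j < 4 ∧ u = X s + j) ∨
    ∃ c j, j < 6 ∧ u = 18 * c + 12 + j := by
  rcases lt_or_ge (u % 18) 12 with h | h
  · left
    refine ⟨3 * (u / 18) + u % 18 / 4, u % 18 % 4, by omega, ?_⟩
    unfold X
    omega
  · right
    exact ⟨u / 18, u % 18 - 12, by omega, by omega⟩

theorem col_tip (s : ℕ) : col (tip φ s) = 2 := by
  unfold tip
  split_ifs
  · exact col_X s (by omega)
  · exact col_X s (by omega)

theorem col_six {c v : ℕ} (h : v ∈ six c) : col v = 2 := by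
  simp only [six, List.mem_cons, List.not_mem_nil, or_false] at h
  unfold col
  rcases h with h | h | h | h | h | h <;> subst h <;> rw [if_pos (by omega)] <;> omega

theorem col_tips {c v : ℕ} (h : v ∈ tips φ c) : col v = 2 := by
  simp only [tips, List.mem_cons, List.not_mem_nil, or_false] at h
  rcases h with h | h | h <;> subst h <;> exact col_tip _

/-- What the lists of edges contain. -/
theorem out_col {u v : ℕ} (h : v ∈ out φ u) : col u ≠ col v ∧ v % 18 ≠ 12 ∧
    ∀ s, v ≠ X s + 1 := by
  have key : ∀ s w, col w = 2 → w ≠ X s + 1 := by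
    intro s w hw he
    rw [he, col_X s (by omega)] at hw
    omega
  have key0 : ∀ s w, col w = 0 → w ≠ X s + 1 := by
    intro s w hw he
    rw [he, col_X s (by omega)] at hw
    omega
  have cX : ∀ s, col (X s) = 0 := fun s => by simpa using col_X s (j := 0) (by omega)
  have mX : ∀ s, X s % 18 ≠ 12 := fun s => by have := X_mod s; omega
  have two : ∀ w, col w = 2 → w % 18 ≠ 12 := by
    intro w hw h12
    unfold col at hw
    rw [if_neg (by omega)] at hw
    omega
  have big : ∀ c j s, 12 ≤ j → j < 18 → 18 * c + j ≠ X s + 1 := by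
    intro c j s h1 h2 he
    have h3 := X_add_mod s (j := 1) (by omega)
    have h4 : (18 * c + j) % 18 = j := by omega
    rw [← he, h4] at h3
    omega
  rcases vertex_cases u with ⟨s, j, hj, rfl⟩ | ⟨c, j, hj, rfl⟩
  · have hj' : j = 0 ∨ j = 1 ∨ j = 2 ∨ j = 3 := by omega
    rcases hj' with rfl | rfl | rfl | rfl
    · rw [add_zero, out_X] at h
      exact absurd h List.not_mem_nil
    · rw [out_Y] at h
      rw [col_X s (by omega)]
      simp only [List.mem_cons, List.not_mem_nil, or_false] at h
      rcases h with rfl | rfl | rfl | rfl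
      · exact ⟨by rw [cX]; omega, mX _, fun t => key0 t _ (cX _)⟩
      · have := col_X s (j := 2) (by omega)
        exact ⟨by rw [this]; omega, two _ this, fun t => key t _ this⟩
      · exact ⟨by rw [cX]; omega, mX _, fun t => key0 t _ (cX _)⟩
      · have := col_X s (j := 3) (by omega)
        exact ⟨by rw [this]; omega, two _ this, fun t => key t _ this⟩
    · rw [out_U0, List.mem_singleton] at h
      rw [h, col_X s (by omega)]
      exact ⟨by rw [cX]; omega, mX _, fun t => key0 t _ (cX _)⟩
    · rw [out_U1, List.mem_singleton] at h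
      rw [h, col_X s (by omega)]
      exact ⟨by rw [cX]; omega, mX _, fun t => key0 t _ (cX _)⟩
  · have hcu : col (18 * c + 12 + j) = j % 2 := by
      unfold col
      rw [if_neg (by omega)]
      omega
    have hj' : j = 0 ∨ j = 1 ∨ j = 2 ∨ j = 3 ∨ j = 4 ∨ j = 5 := by omega
    have c1 : ∀ i, (i = 13 ∨ i = 15 ∨ i = 17) → col (18 * c + i) = 1 := by
      intro i hi
      unfold col
      rw [if_neg (by omega)]
      omega
    rcases hj' with rfl | rfl | rfl | rfl | rfl | rfl
    · rw [add_zero, out_P, List.mem_cons] at h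
      rcases h with rfl | h
      · exact ⟨by rw [hcu, c1 13 (by omega)]; omega, by omega, fun t => big c 13 t (by omega) (by omega)⟩
      · have := col_tips h
        exact ⟨by rw [hcu, this]; omega, two _ this, fun t => key t _ this⟩
    · rw [show 18 * c + 12 + 1 = 18 * c + 13 from rfl, out_Q] at h
      have := col_tips h
      exact ⟨by rw [hcu, this]; omega, two _ this, fun t => key t _ this⟩
    · rw [show 18 * c + 12 + 2 = 18 * c + 14 from rfl, out_G1, List.mem_cons] at h
      rcases h with rfl | h
      · exact ⟨by rw [hcu, c1 15 (by omega)]; omega, by omega, fun t => big c 15 t (by omega) (by omega)⟩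
      · have := col_six h
        exact ⟨by rw [hcu, this]; omega, two _ this, fun t => key t _ this⟩
    · rw [show 18 * c + 12 + 3 = 18 * c + 15 from rfl, out_H1] at h
      have := col_six h
      exact ⟨by rw [hcu, this]; omega, two _ this, fun t => key t _ this⟩
    · rw [show 18 * c + 12 + 4 = 18 * c + 16 from rfl, out_G2, List.mem_cons] at h
      rcases h with rfl | h
      · exact ⟨by rw [hcu, c1 17 (by omega)]; omega, by omega, fun t => big c 17 t (by omega) (by omega)⟩
      · have := col_six h
        exact ⟨by rw [hcu, this]; omega, two _ this, fun t => key t _ this⟩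
    · rw [show 18 * c + 12 + 5 = 18 * c + 17 from rfl, out_H2] at h
      have := col_six h
      exact ⟨by rw [hcu, this]; omega, two _ this, fun t => key t _ this⟩

theorem out_length (u : ℕ) : (out φ u).length ≤ 7 := by
  unfold out
  split_ifs <;> simp [tips, six]

theorem mem_edg {u v : ℕ} : (u, v) ∈ edg φ ↔ u < 18 * φ.length ∧ v ∈ out φ u := by
  simp only [edg, List.mem_flatMap, List.mem_range, List.mem_map, Prod.mk.injEq]
  constructor
  · rintro ⟨w, hw, z, hz, rfl, rfl⟩
    exact ⟨hw, hz⟩
  · rintro ⟨h1, h2⟩
    exact ⟨u, h1, v, h2, rfl, rfl⟩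

theorem verts_inst : verts (inst φ) = range (18 * φ.length) := by
  simp [verts, inst]

theorem adj_inst {u v : ℕ} : Adj (inst φ) u v ↔ u ≠ v ∧
    ((u < 18 * φ.length ∧ v ∈ out φ u) ∨ (v < 18 * φ.length ∧ u ∈ out φ v)) := by
  unfold Adj inst
  rw [mem_edg, mem_edg]

theorem adj_col {u v : ℕ} (h : Adj (inst φ) u v) : col u ≠ col v := by
  rw [adj_inst] at h
  rcases h.2 with h | h
  · exact (out_col h.2).1
  · exact (out_col h.2).1.symm

theorem adj_of_out {u v : ℕ} (hu : u < 18 * φ.length) (h : v ∈ out φ u) : Adj (inst φ) u v := by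
  rw [adj_inst]
  refine ⟨fun he => ?_, Or.inl ⟨hu, h⟩⟩
  exact (out_col h).1 (by rw [he])

theorem edges_le' (s : Finset ℕ) : edgesIn (inst φ) s ≤ 7 * #s := by
  refine edges_le_seven (fun u => (out φ u).toFinset) (fun u => ?_) fun u v h => ?_
  · exact (List.toFinset_card_le _).trans (out_length u)
  · rw [List.mem_toFinset, List.mem_toFinset]
    rcases (adj_inst.1 h).2 with h | h
    · exact Or.inl h.2
    · exact Or.inr h.2

/-- The neighbours of `Y s`. -/
theorem adj_Y {s v : ℕ} (h : Adj (inst φ) (X s + 1) v) :
    v = X s ∨ v = X s + 2 ∨ v = X (nx φ s) ∨ v = X s + 3 := by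
  rcases (adj_inst.1 h).2 with h | h
  · have := h.2
    rw [out_Y] at this
    simpa using this
  · exact ((out_col h.2).2.2 s rfl).elim

/-- The neighbours of the first clause vertex. -/
theorem adj_P {c v : ℕ} (h : Adj (inst φ) (18 * c + 12) v) :
    v = 18 * c + 13 ∨ v ∈ tips φ c := by
  rcases (adj_inst.1 h).2 with h | h
  · have := h.2
    rw [out_P] at this
    simpa using this
  · exact ((out_col h.2).2.1 (by omega)).elim

theorem adj_X_U0 {a b : ℕ} (h : Adj (inst φ) (X a) (X b + 2)) : a = b := by
  rcases (adj_inst.1 h).2 with h | h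
  · have := h.2
    rw [out_X] at this
    exact absurd this List.not_mem_nil
  · have := h.2
    rw [out_U0, List.mem_singleton] at this
    exact (X_inj (i := 0) (j := 0) (by omega) (by omega) this).1

theorem adj_X_U1 {a b : ℕ} (h : Adj (inst φ) (X a) (X b + 3)) : a = nx φ b := by
  rcases (adj_inst.1 h).2 with h | h
  · have := h.2
    rw [out_X] at this
    exact absurd this List.not_mem_nil
  · have := h.2
    rw [out_U1, List.mem_singleton] at this
    exact (X_inj (i := 0) (j := 0) (by omega) (by omega) this).1

end Pool.Agent.Q10.DG
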